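import Pool.Agent.L0h14.MX.Tr
import Pool.Agent.L0h14.HO.Dims

/-!
# Extensions of the standard representation: dimensions
-/

set_option autoImplicit false

open Matrix Filter Topology

namespace Pool.Agent.L0h14.MX

open Pool.Agent.Y119.HY (HD E E_HD E_zero E_mul_neg E_add chain_li)
open Pool.Agent.L0h14.HO

variable {n : ℕ}

/-- the block matrix with a trivial first row and column -/
def nemb (g : Matrix (Fin n) (Fin n) ℂ) : Matrix (Fin (n + 1)) (Fin (n + 1)) ℂ :=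
  Matrix.of (Fin.cons (Fin.cons 0 0) fun i => Fin.cons 0 (g i))

@[simp] lemma nemb_00 (g : Matrix (Fin n) (Fin n) ℂ) : nemb g 0 0 = 0 := rfl
@[simp] lemma nemb_0s (g : Matrix (Fin n) (Fin n) ℂ) (j : Fin n) : nemb g 0 j.succ = 0 := rfl
@[simp] lemma nemb_s0 (g : Matrix (Fin n) (Fin n) ℂ) (i : Fin n) : nemb g i.succ 0 = 0 := rfl
@[simp] lemma nemb_ss (g : Matrix (Fin n) (Fin n) ℂ) (i j : Fin n) : nemb g i.succ j.succ = g i j := rfl

lemma emb_line (X : Matrix (Fin n) (Fin n) ℂ) (t : ℂ) : emb 0 (1 + t • X) = 1 + t • nemb X := by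
  refine ext_emb ?_ (fun j => ?_) (fun i => ?_) fun i j => ?_
  · simp
  · simp [Matrix.one_apply, (Fin.succ_ne_zero j).symm]
  · simp
  · simp [Matrix.one_apply]

/-- polynomials on a coset of the block -/
lemma pe_emb_left (ĝ : Matrix (Fin (n + 1)) (Fin (n + 1)) ℂ) (q : MvPolynomial (Fin (n + 1) × Fin (n + 1)) ℂ) :
    ∃ q' : MvPolynomial (Fin n × Fin n) ℂ, ∀ g, pe q' g = pe q (ĝ * emb 0 g) := by
  obtain ⟨q', h⟩ := pe_emb (n := n) (MvPolynomial.bind₁ (fun x : Fin (n + 1) × Fin (n + 1) =>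
    ∑ k, MvPolynomial.C (ĝ x.1 k) * MvPolynomial.X (k, x.2)) q)
  refine ⟨q', fun g => ?_⟩
  rw [h]
  unfold pe
  rw [← MvPolynomial.coe_aeval_eq_eval, ← MvPolynomial.coe_aeval_eq_eval, RingHom.coe_coe, RingHom.coe_coe,
    MvPolynomial.aeval_bind₁]
  congr 1
  congr 1
  funext x
  simp only [map_sum, map_mul, MvPolynomial.aeval_X, MvPolynomial.aeval_C, Matrix.mul_apply, Algebra.algebraMap_self,
    RingHom.id_apply]

lemma line_HD {m : ℕ} (X : Matrix (Fin m) (Fin m) ℂ) : HD (fun t : ℂ => 1 + t • X) X 0 := by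
  intro i j
  simp only [Matrix.add_apply, Matrix.smul_apply, smul_eq_mul]
  have := ((hasDerivAt_id (0 : ℂ)).mul_const (X i j)).const_add ((1 : Matrix (Fin m) (Fin m) ℂ) i j)
  simpa using this

/-- the Lie algebra of the block -/
lemma nemb_lie {G : Submonoid (Matrix (Fin n) (Fin n) ℂ)} {S : Submonoid (Matrix (Fin (n + 1)) (Fin (n + 1)) ℂ)}
    (h : ∀ g ∈ G, emb 0 g ∈ S) {X : Matrix (Fin n) (Fin n) ℂ} (hX : X ∈ Lie (G : Set (Matrix (Fin n) (Fin n) ℂ))) :
    nemb X ∈ Lie (S : Set (Matrix (Fin (n + 1)) (Fin (n + 1)) ℂ)) := by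
  intro q hq ĝ hĝ
  obtain ⟨q', hq'⟩ := pe_emb_left ĝ q
  have h1 : q' ∈ HO.Id (G : Set (Matrix (Fin n) (Fin n) ℂ)) := by
    intro g hg
    rw [hq']
    exact hq _ (mul_mem hĝ (h g hg))
  have h2 := hX q' h1 1 (one_mem G)
  rw [one_mul] at h2
  have h3 := pe_HD q' (line_HD X)
  have h4 := pe_HD q (HD.const_mul (line_HD (nemb X)) ĝ)
  have h5 : (fun t : ℂ => pe q' (1 + t • X)) = fun t : ℂ => pe q (ĝ * (1 + t • nemb X)) := by
    funext t
    rw [hq', emb_line]
  rw [h5] at h3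
  have h6 := h3.unique h4
  simp only [zero_smul, add_zero, mul_one] at h6
  rw [← h6]
  exact h2

/-- the group for a trivial subobject -/
def mB (G : Submonoid (Matrix (Fin n) (Fin n) ℂ)) : Submonoid (Matrix (Fin (n + 1)) (Fin (n + 1)) ℂ) where
  carrier := {g | g 0 0 = 1 ∧ (∀ i : Fin n, g i.succ 0 = 0) ∧ low g ∈ G}
  mul_mem' := by
    rintro a b ⟨h1, h2, h3⟩ ⟨h4, h5, h6⟩
    rw [eq_emb h1 h2, eq_emb h4 h5, emb_mul]
    exact ⟨rfl, fun _ => rfl, mul_mem h3 h6⟩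
  one_mem' := by
    rw [← emb_one]
    exact ⟨rfl, fun _ => rfl, one_mem G⟩

/-- the group for a trivial quotient -/
def mA (G : Submonoid (Matrix (Fin n) (Fin n) ℂ)) : Submonoid (Matrix (Fin (n + 1)) (Fin (n + 1)) ℂ) where
  carrier := {g | g 0 0 = 1 ∧ (∀ j : Fin n, g 0 j.succ = 0) ∧ low g ∈ G}
  mul_mem' := by
    rintro a b ⟨h1, h2, h3⟩ ⟨h4, h5, h6⟩
    refine ⟨?_, fun j => ?_, ?_⟩
    · rw [Matrix.mul_apply, Fin.sum_univ_succ, h1, h4, one_mul, Finset.sum_eq_zero (fun i _ => by rw [h2, zero_mul]), add_zero]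
    · rw [Matrix.mul_apply, Fin.sum_univ_succ, h5, mul_zero, zero_add]
      exact Finset.sum_eq_zero fun i _ => by rw [h2, zero_mul]
    · have h7 : low (a * b) = low a * low b := by
        ext i j
        rw [low_apply, Matrix.mul_apply, Fin.sum_univ_succ, h5, mul_zero, zero_add, Matrix.mul_apply]
        rfl
      rw [h7]
      exact mul_mem h3 h6
  one_mem' := by
    rw [← emb_one]
    exact ⟨rfl, fun _ => rfl, one_mem G⟩

lemma emb_mB {G : Submonoid (Matrix (Fin n) (Fin n) ℂ)} (y : Fin n → ℂ) {g : Matrix (Fin n) (Fin n) ℂ} (hg : g ∈ G) :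
    emb y g ∈ mB G := ⟨rfl, fun _ => rfl, hg⟩

lemma emb_mA {G : Submonoid (Matrix (Fin n) (Fin n) ℂ)} (y : Fin n → ℂ) {g : Matrix (Fin n) (Fin n) ℂ} (hg : g ∈ G) :
    (emb y gᵀ)ᵀ ∈ mA G := ⟨rfl, fun _ => rfl, hg⟩

lemma uni_line (y : Fin n → ℂ) (t : ℂ) :
    1 + t • vecMulVec (Pi.single 0 1 : Fin (n + 1) → ℂ) (Fin.cons 0 y) = emb (t • y) 1 := by
  refine ext_emb ?_ (fun j => ?_) (fun i => ?_) fun i j => ?_
  · simp [vecMulVec_apply]
  · simp [vecMulVec_apply, Matrix.one_apply, (Fin.succ_ne_zero j).symm]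
  · simp [vecMulVec_apply, Fin.succ_ne_zero]
  · simp [vecMulVec_apply, Matrix.one_apply, Fin.succ_ne_zero]

lemma li_sum {d : ℕ} {X : Fin d → Matrix (Fin n) (Fin n) ℂ} (hX : LinearIndependent ℂ X) :
    LinearIndependent ℂ (Sum.elim (fun a => nemb (X a)) fun j : Fin n =>
      vecMulVec (Pi.single 0 1 : Fin (n + 1) → ℂ) (Fin.cons 0 (Pi.single j 1))) := by
  rw [Fintype.linearIndependent_iff] at hX ⊢
  intro g hg
  rw [Fintype.sum_sum_type] at hg
  simp only [Sum.elim_inl, Sum.elim_inr] at hg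
  rintro (a | j)
  · refine hX (fun a => g (Sum.inl a)) ?_ a
    ext i j
    have h1 := congrFun (congrFun hg i.succ) j.succ
    rw [Matrix.add_apply, Matrix.sum_apply, Matrix.sum_apply] at h1
    rw [Matrix.sum_apply]
    simpa [vecMulVec_apply, Fin.succ_ne_zero] using h1
  · have h1 := congrFun (congrFun hg 0) j.succ
    rw [Matrix.add_apply, Matrix.sum_apply, Matrix.sum_apply] at h1
    simpa [vecMulVec_apply, Pi.single_apply] using h1

theorem dim_mB {G : Submonoid (Matrix (Fin n) (Fin n) ℂ)} {d : ℕ} (h : HasDim G d) : HasDim (mB G) (d + n) := by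
  obtain ⟨X, h1, h2⟩ := h
  refine HasDim.of (I := Fin d ⊕ Fin n) (by simp) (X := Sum.elim (fun a => nemb (X a)) fun j : Fin n =>
      vecMulVec (Pi.single 0 1 : Fin (n + 1) → ℂ) (Fin.cons 0 (Pi.single j 1))) ?_ (li_sum h2)
  rintro (a | j)
  · exact nemb_lie (fun g hg => emb_mB 0 hg) (h1 a)
  · refine tangent (line_HD _) (by simp) fun t => ?_
    simp only [Sum.elim_inr]
    rw [uni_line]
    exact emb_mB _ (one_mem G)

theorem dim_mA {G : Submonoid (Matrix (Fin n) (Fin n) ℂ)} {d : ℕ} (h : HasDim G d) : HasDim (mA G) (d + n) := by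
  obtain ⟨X, h1, h2⟩ := h
  refine HasDim.of (I := Fin d ⊕ Fin n) (by simp) (X := Sum.elim (fun a => nemb (X a)) fun j : Fin n =>
      vecMulVec (Fin.cons 0 (Pi.single j 1) : Fin (n + 1) → ℂ) (Pi.single 0 1)) ?_ ?_
  · rintro (a | j)
    · exact nemb_lie (fun g hg => by
        have := emb_mA (G := G) 0 hg
        have h3 : (emb (0 : Fin n → ℂ) gᵀ)ᵀ = emb 0 g := by
          refine ext_emb ?_ (fun j => ?_) (fun i => ?_) fun i j => ?_ <;> rfl
        rwa [h3] at this) (h1 a)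
    · refine tangent (line_HD _) (by simp) fun t => ?_
      have h3 : 1 + t • vecMulVec (Fin.cons 0 (Pi.single j 1) : Fin (n + 1) → ℂ) (Pi.single 0 1) =
          (emb (t • Pi.single j 1) (1 : Matrix (Fin n) (Fin n) ℂ)ᵀ)ᵀ := by
        rw [transpose_one, ← uni_line, transpose_add, transpose_one, transpose_smul, transpose_vecMulVec]
      simp only [Sum.elim_inr]
      rw [h3]
      exact emb_mA _ (one_mem G)
  · have h3 : LinearIndependent ℂ (Sum.elim (fun a => nemb ((X a)ᵀ)) fun j : Fin n =>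
      vecMulVec (Pi.single 0 1 : Fin (n + 1) → ℂ) (Fin.cons 0 (Pi.single j 1))) :=
      li_sum (h2.map' (Matrix.transposeLinearEquiv (Fin n) (Fin n) ℂ ℂ).toLinearMap (LinearEquiv.ker _))
    have h4 := h3.map' (Matrix.transposeLinearEquiv (Fin (n + 1)) (Fin (n + 1)) ℂ ℂ).toLinearMap (LinearEquiv.ker _)
    have h5 : (Sum.elim (fun a => nemb (X a)) fun j : Fin n =>
        vecMulVec (Fin.cons 0 (Pi.single j 1) : Fin (n + 1) → ℂ) (Pi.single 0 1)) =
        (Matrix.transposeLinearEquiv (Fin (n + 1)) (Fin (n + 1)) ℂ ℂ).toLinearMap ∘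
          (Sum.elim (fun a => nemb ((X a)ᵀ)) fun j : Fin n =>
            vecMulVec (Pi.single 0 1 : Fin (n + 1) → ℂ) (Fin.cons 0 (Pi.single j 1))) := by
      funext x
      rcases x with a | j
      · refine ext_emb ?_ (fun j => ?_) (fun i => ?_) fun i j => ?_ <;> rfl
      · show _ = (vecMulVec (Pi.single 0 1 : Fin (n + 1) → ℂ) (Fin.cons 0 (Pi.single j 1)))ᵀ
        rw [transpose_vecMulVec]
        rfl
    rw [h5]
    exact h4

end Pool.Agent.L0h14.MX
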