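import Pool.Agent.L0h14.MX.Top

/-!
# Extensions of the standard representation: the group
-/

set_option autoImplicit false

open Matrix Filter Topology

namespace Pool.Agent.L0h14.MX

open Pool.Agent.Y119.HY (HD E E_HD E_zero E_mul_neg E_add chain_li)
open Pool.Agent.L0h14.HO

variable {n : ℕ}

/-- the matrix with the first row `(1, y)`, the first column `(1, 0)` and the lower right block `g` -/
def emb (y : Fin n → ℂ) (g : Matrix (Fin n) (Fin n) ℂ) : Matrix (Fin (n + 1)) (Fin (n + 1)) ℂ :=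
  Matrix.of (Fin.cons (Fin.cons 1 y) fun i => Fin.cons 0 (g i))

/-- the lower right block -/
def low (M : Matrix (Fin (n + 1)) (Fin (n + 1)) ℂ) : Matrix (Fin n) (Fin n) ℂ := M.submatrix Fin.succ Fin.succ

@[simp] lemma emb_00 (y : Fin n → ℂ) (g : Matrix (Fin n) (Fin n) ℂ) : emb y g 0 0 = 1 := rfl
@[simp] lemma emb_0s (y : Fin n → ℂ) (g : Matrix (Fin n) (Fin n) ℂ) (j : Fin n) : emb y g 0 j.succ = y j := rfl
@[simp] lemma emb_s0 (y : Fin n → ℂ) (g : Matrix (Fin n) (Fin n) ℂ) (i : Fin n) : emb y g i.succ 0 = 0 := rfl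
@[simp] lemma emb_ss (y : Fin n → ℂ) (g : Matrix (Fin n) (Fin n) ℂ) (i j : Fin n) : emb y g i.succ j.succ = g i j := rfl
@[simp] lemma low_apply (M : Matrix (Fin (n + 1)) (Fin (n + 1)) ℂ) (i j : Fin n) : low M i j = M i.succ j.succ := rfl

lemma ext_emb {M M' : Matrix (Fin (n + 1)) (Fin (n + 1)) ℂ} (h1 : M 0 0 = M' 0 0) (h2 : ∀ j : Fin n, M 0 j.succ = M' 0 j.succ)
    (h3 : ∀ i : Fin n, M i.succ 0 = M' i.succ 0) (h4 : ∀ i j : Fin n, M i.succ j.succ = M' i.succ j.succ) : M = M' := by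
  ext i j
  induction i using Fin.cases with
  | zero =>
    induction j using Fin.cases with
    | zero => exact h1
    | succ j => exact h2 j
  | succ i =>
    induction j using Fin.cases with
    | zero => exact h3 i
    | succ j => exact h4 i j

lemma emb_mul (y y' : Fin n → ℂ) (g g' : Matrix (Fin n) (Fin n) ℂ) :
    emb y g * emb y' g' = emb (y' + y ᵥ* g') (g * g') := by
  refine ext_emb ?_ (fun j => ?_) (fun i => ?_) fun i j => ?_ <;> rw [Matrix.mul_apply, Fin.sum_univ_succ]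
  · simp
  · simp [Matrix.vecMul, dotProduct]
  · simp
  · simp [Matrix.mul_apply]

lemma emb_one : emb (0 : Fin n → ℂ) 1 = 1 := by
  refine ext_emb ?_ (fun j => ?_) (fun i => ?_) fun i j => ?_
  · simp
  · simp [Matrix.one_apply, Fin.succ_ne_zero, (Fin.succ_ne_zero j).symm]
  · simp [Matrix.one_apply, Fin.succ_ne_zero]
  · simp [Matrix.one_apply]

lemma eq_emb {M : Matrix (Fin (n + 1)) (Fin (n + 1)) ℂ} (h0 : M 0 0 = 1) (h1 : ∀ i : Fin n, M i.succ 0 = 0) :
    M = emb (fun j => M 0 j.succ) (low M) :=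
  ext_emb h0 (fun _ => rfl) h1 fun _ _ => rfl

lemma emb_uni (y : Fin n → ℂ) (g : Matrix (Fin n) (Fin n) ℂ) : emb 0 g * emb y 1 = emb y g := by
  rw [emb_mul, zero_vecMul, add_zero, mul_one]

lemma emb_kill (y : Fin n → ℂ) (g : Matrix (Fin n) (Fin n) ℂ) : emb y g * emb (-y) 1 = emb 0 g := by
  rw [emb_mul, vecMul_one, neg_add_cancel, mul_one]

section pow

variable {N : Matrix (Fin (n + 1)) (Fin (n + 1)) ℂ}

lemma pow_s0 (h : ∀ i, N i 0 = 0) (k : ℕ) (i : Fin (n + 1)) : (N ^ (k + 1)) i 0 = 0 := by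
  rw [pow_succ, Matrix.mul_apply]
  refine Finset.sum_eq_zero fun j _ => ?_
  rw [h, mul_zero]

lemma low_mul {M M' : Matrix (Fin (n + 1)) (Fin (n + 1)) ℂ} (h : ∀ i : Fin n, M i.succ 0 = 0) :
    low (M * M') = low M * low M' := by
  ext i j
  rw [low_apply, Matrix.mul_apply, Fin.sum_univ_succ, h, zero_mul, zero_add, Matrix.mul_apply]
  rfl

lemma low_one : low (1 : Matrix (Fin (n + 1)) (Fin (n + 1)) ℂ) = 1 := by
  ext i j
  simp [Matrix.one_apply]

lemma low_pow (h : ∀ i, N i 0 = 0) (k : ℕ) : low (N ^ k) = low N ^ k := by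
  induction k with
  | zero => rw [pow_zero, pow_zero, low_one]
  | succ k ih =>
    rw [pow_succ', pow_succ', low_mul (fun i => h _), ih]

lemma low_nil (h : ∀ i, N i 0 = 0) (hN : N ^ (n + 1) = 0) : low N ^ n = 0 := by
  have h1 : low N ^ (n + 1) = 0 := by
    rw [← low_pow h, hN]
    rfl
  have h2 : IsNilpotent (low N) := ⟨n + 1, h1⟩
  have h3 := Matrix.isNilpotent_charpoly_sub_pow_of_isNilpotent h2
  have h4 : (low N).charpoly = Polynomial.X ^ n := by
    have h5 := sub_eq_zero.1 h3.eq_zero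
    rw [h5, Fintype.card_fin]
  have h6 := Matrix.aeval_self_charpoly (low N)
  rw [h4, map_pow, Polynomial.aeval_X] at h6
  exact h6

lemma E_00 (h : ∀ i, N i 0 = 0) (s : ℂ) : E N s 0 0 = 1 := by
  unfold E
  rw [Matrix.sum_apply, Finset.sum_range_succ', Finset.sum_eq_zero]
  · simp
  · intro k _
    rw [Matrix.smul_apply, pow_s0 h, smul_zero]

lemma E_s0 (h : ∀ i, N i 0 = 0) (s : ℂ) (i : Fin n) : E N s i.succ 0 = 0 := by
  unfold E
  rw [Matrix.sum_apply, Finset.sum_range_succ', Finset.sum_eq_zero]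
  · simp [Matrix.one_apply, Fin.succ_ne_zero]
  · intro k _
    rw [Matrix.smul_apply, pow_s0 h, smul_zero]

lemma E_low (h : ∀ i, N i 0 = 0) (hN : N ^ (n + 1) = 0) (s : ℂ) : low (E N s) = E (low N) s := by
  ext i j
  rw [low_apply]
  unfold E
  rw [Matrix.sum_apply, Matrix.sum_apply, Finset.sum_range_succ]
  have h1 : (N ^ n) i.succ j.succ = 0 := by
    show low (N ^ n) i j = 0
    rw [low_pow h, low_nil h hN]
    rfl
  rw [Matrix.smul_apply, h1, smul_zero, add_zero]
  refine Finset.sum_congr rfl fun k _ => ?_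
  rw [Matrix.smul_apply, Matrix.smul_apply, ← low_pow h]
  rfl

lemma E_emb (h : ∀ i, N i 0 = 0) (hN : N ^ (n + 1) = 0) (s : ℂ) :
    E N s = emb (fun j => E N s 0 j.succ) (E (low N) s) := by
  rw [← E_low h hN]
  exact eq_emb (E_00 h s) (E_s0 h s)

end pow

/-- polynomials on the block -/
lemma pe_emb (q : MvPolynomial (Fin (n + 1) × Fin (n + 1)) ℂ) :
    ∃ q' : MvPolynomial (Fin n × Fin n) ℂ, ∀ g, pe q' g = pe q (emb 0 g) := by
  refine ⟨MvPolynomial.bind₁ (fun x : Fin (n + 1) × Fin (n + 1) =>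
    (Fin.cases (Fin.cases (MvPolynomial.C 1) (fun _ => MvPolynomial.C 0) x.2)
      (fun i => Fin.cases (MvPolynomial.C 0) (fun j => MvPolynomial.X (i, j)) x.2) x.1 : MvPolynomial (Fin n × Fin n) ℂ)) q,
    fun g => ?_⟩
  unfold pe
  rw [← MvPolynomial.coe_aeval_eq_eval, ← MvPolynomial.coe_aeval_eq_eval, RingHom.coe_coe, RingHom.coe_coe,
    MvPolynomial.aeval_bind₁]
  congr 1
  congr 1
  funext x
  obtain ⟨i, j⟩ := x
  induction i using Fin.cases with
  | zero =>
    induction j using Fin.cases with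
    | zero => simp
    | succ j => simp
  | succ i =>
    induction j using Fin.cases with
    | zero => simp
    | succ j => simp

section dens

variable {N : Matrix (Fin (n + 1)) (Fin (n + 1)) ℂ} {u p : Fin (n + 1) → ℂ}
  {S : Submonoid (Matrix (Fin (n + 1)) (Fin (n + 1)) ℂ)}

/-- the matrices in the block -/
def blk (S : Submonoid (Matrix (Fin (n + 1)) (Fin (n + 1)) ℂ)) : Submonoid (Matrix (Fin n) (Fin n) ℂ) where
  carrier := {g | emb 0 g ∈ S}
  mul_mem' := by
    intro a b ha hb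
    show emb 0 (a * b) ∈ S
    have h1 := mul_mem (show emb 0 a ∈ S from ha) (show emb 0 b ∈ S from hb)
    rwa [emb_mul, zero_vecMul, add_zero] at h1
  one_mem' := by
    show emb 0 1 ∈ S
    rw [emb_one]
    exact one_mem S

lemma blk_Z (hZ : ∀ g, (∀ q ∈ HO.Id (S : Set (Matrix (Fin (n + 1)) (Fin (n + 1)) ℂ)), pe q g = 0) → g ∈ S)
    (g : Matrix (Fin n) (Fin n) ℂ) (h : ∀ q ∈ HO.Id (blk S : Set (Matrix (Fin n) (Fin n) ℂ)), pe q g = 0) : g ∈ blk S := by
  show emb 0 g ∈ S
  refine hZ _ fun q hq => ?_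
  obtain ⟨q', hq'⟩ := pe_emb q
  rw [← hq']
  exact h q' fun g hg => by rw [hq']; exact hq _ hg

/-- the rank one matrices with first row -/
lemma uni_emb (y : Fin n → ℂ) : 1 + (1 : ℂ) • vecMulVec (Pi.single 0 1 : Fin (n + 1) → ℂ) (Fin.cons 0 y) = emb y 1 := by
  refine ext_emb ?_ (fun j => ?_) (fun i => ?_) fun i j => ?_
  · simp [vecMulVec_apply]
  · simp [vecMulVec_apply, Matrix.one_apply, (Fin.succ_ne_zero j).symm]
  · simp [vecMulVec_apply, Matrix.one_apply, Fin.succ_ne_zero]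
  · simp [vecMulVec_apply, Matrix.one_apply, Fin.succ_ne_zero]

variable (hn : 1 ≤ n) (hN0 : ∀ i, N i 0 = 0) (hN : N ^ (n + 1) = 0) (hp0 : p 0 = 0)
  (hcor : p ⬝ᵥ ((N ^ (n - 1)) *ᵥ u) ≠ 0) (hext : (N ^ n) *ᵥ u ≠ 0) {κ : ℂ} (hκ : p ⬝ᵥ u = 1 - κ) (hκ1 : ‖κ‖ = 1)
  (hE : ∀ c : ℂ, ∀ g ∈ S, E N c * g * E N (-c) ∈ S) (hS : 1 - vecMulVec u p ∈ S)
  {T' : Matrix (Fin (n + 1)) (Fin (n + 1)) ℂ} (hT' : (1 - vecMulVec u p) * T' = 1) (hS' : T' ∈ S)
  (hZ : ∀ g, (∀ q ∈ HO.Id (S : Set (Matrix (Fin (n + 1)) (Fin (n + 1)) ℂ)), pe q g = 0) → g ∈ S)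

include hN0 hN hp0 in
lemma pN_zero : p ᵥ* N ^ n = 0 := by
  have h1 : ∀ i j : Fin n, (N ^ n) i.succ j.succ = 0 := by
    intro i j
    show low (N ^ n) i j = 0
    rw [low_pow hN0, low_nil hN0 hN]
    rfl
  funext j
  rw [Pi.zero_apply, vecMul, dotProduct, Fin.sum_univ_succ, hp0, zero_mul, zero_add]
  refine Finset.sum_eq_zero fun i _ => ?_
  induction j using Fin.cases with
  | zero =>
    rcases n with _ | n
    · exact i.elim0
    · rw [pow_s0 hN0, mul_zero]
  | succ j => rw [h1, mul_zero]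

include hn hN0 hN hp0 hcor hext hκ hκ1 hE hS hT' hS' hZ in
/-- **The unipotent radical.** -/
theorem uni_all (y : Fin n → ℂ) : emb y 1 ∈ S := by
  have hκ0 : κ ≠ 0 := by
    rintro rfl
    simp at hκ1
  set L := Lie (S : Set (Matrix (Fin (n + 1)) (Fin (n + 1)) ℂ)) with hL
  set e₀ : Fin (n + 1) → ℂ := Pi.single 0 1 with he₀
  have hpN := pN_zero hN0 hN hp0
  have h1 := top_mem rfl hn hN hpN hE hS hT' hS' hκ hκ1
  -- the image of `N ^ n`
  have h2 : ∀ i j : Fin n, (N ^ n) i.succ j.succ = 0 := by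
    intro i j
    show low (N ^ n) i j = 0
    rw [low_pow hN0, low_nil hN0 hN]
    rfl
  obtain ⟨α, hα⟩ : ∃ α : ℂ, (N ^ n) *ᵥ u = α • e₀ := by
    refine ⟨((N ^ n) *ᵥ u) 0, ?_⟩
    funext i
    induction i using Fin.cases with
    | zero => simp [he₀]
    | succ i =>
      rw [Pi.smul_apply, he₀, Pi.single_eq_of_ne (Fin.succ_ne_zero i), smul_zero, mulVec, dotProduct, Fin.sum_univ_succ]
      have h3 : (N ^ n) i.succ 0 = 0 := by
        rcases n with _ | n
        · exact i.elim0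
        · exact pow_s0 hN0 _ _
      rw [h3, zero_mul, zero_add]
      refine Finset.sum_eq_zero fun j _ => ?_
      rw [h2, zero_mul]
  have hα0 : α ≠ 0 := by
    rintro rfl
    rw [zero_smul] at hα
    exact hext hα
  have hNe : N *ᵥ e₀ = 0 := by
    rw [he₀, mulVec_single]
    funext i
    simp [hN0]
  have hTe : (1 - vecMulVec u p) *ᵥ e₀ = e₀ := by
    rw [sub_mulVec, one_mulVec, vecMulVec_mulVec, he₀, dotProduct_single, hp0, zero_mul]
    simp
  -- the first element
  have h3 : vecMulVec e₀ (p ᵥ* N ^ (n - 1)) ∈ L := by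
    rw [hα, smul_vecMulVec] at h1
    have h4 := Submodule.smul_mem L α⁻¹ h1
    rwa [smul_smul, inv_mul_cancel₀ hα0, one_smul] at h4
  -- conjugation
  have hT'e := inv_eq hT' hκ hκ0
  have hT'T : T' * (1 - vecMulVec u p) = 1 := mul_eq_one_comm.1 hT'
  have h4 : vecMulVec e₀ p ∈ L := by
    have h5 := conj_lie hT' (fun g hg => mul_mem (mul_mem hS hg) hS') (fun g hg => mul_mem (mul_mem hS' hg) hS) h3
    have h6 : (1 - vecMulVec u p) * vecMulVec e₀ (p ᵥ* N ^ (n - 1)) * T' =
        vecMulVec e₀ (p ᵥ* N ^ (n - 1)) + (κ⁻¹ * (p ⬝ᵥ ((N ^ (n - 1)) *ᵥ u))) • vecMulVec e₀ p := by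
      rw [mul_vecMulVec, hTe, hT'e, mul_add, mul_one, mul_smul_comm, vecMulVec_mul_vecMulVec, ← dotProduct_mulVec,
        vecMulVec_smul, smul_smul]
    rw [h6] at h5
    have h7 := Submodule.sub_mem L h5 h3
    rw [add_sub_cancel_left] at h7
    have h8 := Submodule.smul_mem L (κ⁻¹ * (p ⬝ᵥ ((N ^ (n - 1)) *ᵥ u)))⁻¹ h7
    rwa [smul_smul, inv_mul_cancel₀ (mul_ne_zero (inv_ne_zero hκ0) hcor), one_smul] at h8
  -- brackets
  have h5 : ∀ k : ℕ, vecMulVec e₀ (p ᵥ* N ^ k) ∈ L := by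
    intro k
    induction k with
    | zero => rw [pow_zero, vecMul_one]; exact h4
    | succ k ih =>
      have h6 := bracket hN hE ih
      rw [mul_vecMulVec, hNe, vecMulVec_mul, vecMul_vecMul, ← pow_succ] at h6
      have h7 : vecMulVec (0 : Fin (n + 1) → ℂ) (p ᵥ* N ^ k) = 0 := by
        ext i j
        simp [vecMulVec_apply]
      rw [h7, zero_sub] at h6
      exact (Submodule.neg_mem_iff L).1 h6
  -- all vectors
  have h6 : vecMulVec e₀ (Fin.cons 0 y) ∈ L := by
    by_contra hcon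
    obtain ⟨l, hl1, hl2⟩ := Submodule.exists_le_ker_of_notMem hcon
    set l' : (Fin n → ℂ) →ₗ[ℂ] ℂ :=
      { toFun := fun y => l (vecMulVec e₀ (Fin.cons 0 y))
        map_add' := fun x y => by
          rw [← map_add, ← vecMulVec_add]
          congr 2
          funext i
          induction i using Fin.cases with
          | zero => simp
          | succ i => simp
        map_smul' := fun c x => by
          rw [RingHom.id_apply, smul_eq_mul, ← smul_eq_mul, ← map_smul, ← vecMulVec_smul]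
          congr 2
          funext i
          induction i using Fin.cases with
          | zero => simp
          | succ i => simp } with hl'
    have hcy : ∀ k : ℕ, (p ᵥ* N ^ k) = Fin.cons 0 (((low N).transpose ^ k) *ᵥ fun i => p i.succ) := by
      intro k
      funext j
      induction j using Fin.cases with
      | zero =>
        rw [Fin.cons_zero]
        rcases k with _ | k
        · rw [pow_zero, vecMul_one, hp0]
        · rw [vecMul, dotProduct]
          refine Finset.sum_eq_zero fun i _ => ?_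
          rw [pow_s0 hN0, mul_zero]
      | succ j =>
        rw [Fin.cons_succ, vecMul, dotProduct, Fin.sum_univ_succ, hp0, zero_mul, zero_add, ← transpose_pow, mulVec_transpose,
          vecMul, dotProduct]
        refine Finset.sum_congr rfl fun i _ => ?_
        rw [← low_pow hN0]
        rfl
    have hNt : (low N).transpose ^ n = 0 := by rw [← transpose_pow, low_nil hN0 hN, transpose_zero]
    have hpc : ((low N).transpose ^ (n - 1)) *ᵥ (fun i => p i.succ) ≠ 0 := by
      intro h0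
      have h7 := hcy (n - 1)
      rw [h0] at h7
      have h8 : (Fin.cons 0 (0 : Fin n → ℂ) : Fin (n + 1) → ℂ) = 0 := by
        funext i
        induction i using Fin.cases with
        | zero => rfl
        | succ i => rfl
      rw [h8] at h7
      rw [dotProduct_mulVec, h7, zero_dotProduct] at hcor
      exact hcor rfl
    have hli := chain_li hNt hpc
    have hspan : ∀ y : Fin n → ℂ, y ∈ Submodule.span ℂ (Set.range fun i : Fin n =>
        ((low N).transpose ^ (i : ℕ)) *ᵥ fun i => p i.succ) := by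
      intro y
      have : Submodule.span ℂ (Set.range fun i : Fin n => ((low N).transpose ^ (i : ℕ)) *ᵥ fun i => p i.succ) = ⊤ :=
        hli.span_eq_top_of_card_eq_finrank' (by simp)
      rw [this]
      exact Submodule.mem_top
    have hl0 : l' y = 0 := by
      have h9 : Submodule.span ℂ (Set.range fun i : Fin n =>
        ((low N).transpose ^ (i : ℕ)) *ᵥ fun i => p i.succ) ≤ LinearMap.ker l' := by
        rw [Submodule.span_le]
        rintro _ ⟨i, rfl⟩
        show l (vecMulVec e₀ (Fin.cons 0 _)) = 0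
        rw [← hcy]
        exact LinearMap.mem_ker.1 (hl2 (h5 i))
      exact LinearMap.mem_ker.1 (h9 (hspan y))
    exact hl1 hl0
  have h7 := uni_mem hZ (X := vecMulVec e₀ (Fin.cons 0 y)) (by
    rw [vecMulVec_mul_vecMulVec, he₀, dotProduct_single, Fin.cons_zero, zero_mul]
    ext i j
    simp [vecMulVec_apply]) h6 1
  rw [uni_emb] at h7
  exact h7

include hn hN0 hN hp0 hcor hext hκ hκ1 hE hS hT' hS' hZ in
/-- **The density theorem.** -/
theorem densB {G : Set (Matrix (Fin n) (Fin n) ℂ)}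
    (hG : ∀ S₁ : Submonoid (Matrix (Fin n) (Fin n) ℂ), (∀ c : ℂ, ∀ g ∈ S₁, E (low N) c * g * E (low N) (-c) ∈ S₁) →
      1 - vecMulVec (fun i => u i.succ) (fun i => p i.succ) ∈ S₁ →
      (∃ T₁ ∈ S₁, (1 - vecMulVec (fun i => u i.succ) (fun i => p i.succ)) * T₁ = 1) →
      (∀ g, (∀ q ∈ HO.Id (S₁ : Set (Matrix (Fin n) (Fin n) ℂ)), pe q g = 0) → g ∈ S₁) → ∀ g ∈ G, g ∈ S₁)
    (y : Fin n → ℂ) {g : Matrix (Fin n) (Fin n) ℂ} (hg : g ∈ G) : emb y g ∈ S := by
  have hκ0 : κ ≠ 0 := by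
    rintro rfl
    simp at hκ1
  have hU := uni_all hn hN0 hN hp0 hcor hext hκ hκ1 hE hS hT' hS' hZ
  have hkill : ∀ (y : Fin n → ℂ) (g : Matrix (Fin n) (Fin n) ℂ), emb y g ∈ S → g ∈ blk S := by
    intro y g h
    show emb 0 g ∈ S
    rw [← emb_kill y g]
    exact mul_mem h (hU _)
  have h1 := hG (blk S) (fun c g hg => ?_) ?_ ?_ (blk_Z hZ) g hg
  · rw [← emb_uni]
    exact mul_mem h1 (hU y)
  · have h2 := hE c _ (show emb 0 g ∈ S from hg)
    rw [E_emb hN0 hN c, E_emb hN0 hN (-c), emb_mul, emb_mul] at h2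
    exact hkill _ _ h2
  · refine hkill (fun j => (1 - vecMulVec u p) 0 j.succ) _ ?_
    have h2 : 1 - vecMulVec u p = emb (fun j => (1 - vecMulVec u p) 0 j.succ)
        (1 - vecMulVec (fun i => u i.succ) (fun i => p i.succ)) := by
      refine ext_emb ?_ (fun j => rfl) (fun i => ?_) fun i j => ?_
      · simp [vecMulVec_apply, hp0]
      · simp [vecMulVec_apply, hp0, Matrix.one_apply, Fin.succ_ne_zero]
      · simp [vecMulVec_apply, Matrix.one_apply]
    rw [← h2]
    exact hS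
  · have hd : (fun i => p (Fin.succ i)) ⬝ᵥ (fun i : Fin n => u i.succ) = 1 - κ := by
      rw [← hκ, dotProduct, dotProduct, Fin.sum_univ_succ, hp0, zero_mul, zero_add]
    refine ⟨1 + κ⁻¹ • vecMulVec (fun i => u i.succ) (fun i => p i.succ), hkill (fun j => T' 0 j.succ) _ ?_, ?_⟩
    · have h2 : T' = emb (fun j => T' 0 j.succ)
          (1 + κ⁻¹ • vecMulVec (fun i => u i.succ) (fun i => p i.succ)) := by
        refine ext_emb ?_ (fun j => rfl) (fun i => ?_) fun i j => ?_ <;> rw [inv_eq hT' hκ hκ0]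
        · simp [vecMulVec_apply, hp0]
        · simp [vecMulVec_apply, hp0, Matrix.one_apply, Fin.succ_ne_zero]
        · simp [vecMulVec_apply, Matrix.one_apply]
      rw [← h2]
      exact hS'
    · rw [sub_mul, one_mul, mul_add, mul_one, mul_smul_comm, vecMulVec_mul_vecMulVec, hd, vecMulVec_smul, smul_smul]
      have : κ⁻¹ * (1 - κ) = κ⁻¹ - 1 := by field_simp
      rw [this]
      module

end dens

end Pool.Agent.L0h14.MX
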