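import Pool.Agent.L0h14.MX.Sys

/-!
# Extensions of conifold families: maximally unipotent monodromy
-/

set_option autoImplicit false

open Matrix

namespace Pool.Agent.L0h14.MX

open Pool.Agent.Y119.HY (chain_li)

variable {n : ℕ}

/-- if the highest power of `N` is not zero then it does not kill the vanishing cycle -/
lemma ext_of {N : Matrix (Fin (n + 1)) (Fin (n + 1)) ℂ} {u : Fin (n + 1) → ℂ} (hn : 1 ≤ n) (hN0 : ∀ i, N i 0 = 0)
    (hN : N ^ (n + 1) = 0) (hu : (low N ^ (n - 1)) *ᵥ (fun i => u i.succ) ≠ 0) (h : N ^ n ≠ 0) : (N ^ n) *ᵥ u ≠ 0 := by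
  intro h0
  apply h
  have hM := low_nil hN0 hN
  have h2 : ∀ i j : Fin n, (N ^ n) i.succ j.succ = 0 := by
    intro i j
    show low (N ^ n) i j = 0
    rw [low_pow hN0, hM]
    rfl
  have hc : ∀ i, (N ^ n) i 0 = 0 := by
    intro i
    obtain ⟨k, rfl⟩ : ∃ k, n = k + 1 := ⟨n - 1, by omega⟩
    exact pow_s0 hN0 k i
  -- the first row
  set r : Fin n → ℂ := fun j => (N ^ n) 0 j.succ with hr
  have hr1 : r ⬝ᵥ (fun i => u i.succ) = 0 := by
    have h3 := congrFun h0 0
    rw [mulVec, dotProduct, Fin.sum_univ_succ, hc, zero_mul, zero_add] at h3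
    exact h3
  have hr2 : r ᵥ* low N = 0 := by
    funext j
    have h3 : (N ^ n * N) 0 j.succ = 0 := by
      rw [← pow_succ, hN]
      rfl
    rw [Matrix.mul_apply, Fin.sum_univ_succ, hc, zero_mul, zero_add] at h3
    rw [Pi.zero_apply, vecMul, dotProduct]
    exact h3
  have hr3 : ∀ k : ℕ, r ⬝ᵥ ((low N ^ k) *ᵥ fun i => u i.succ) = 0 := by
    intro k
    rcases k with _ | k
    · rw [pow_zero, one_mulVec]
      exact hr1
    · rw [pow_succ', ← mulVec_mulVec, dotProduct_mulVec, hr2, zero_dotProduct]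
  have hli := chain_li hM hu
  have hspan : Submodule.span ℂ (Set.range fun i : Fin n => (low N ^ (i : ℕ)) *ᵥ fun i => u i.succ) = ⊤ :=
    hli.span_eq_top_of_card_eq_finrank' (by simp)
  set l : (Fin n → ℂ) →ₗ[ℂ] ℂ := HO.lf r with hl
  have hle : Submodule.span ℂ (Set.range fun i : Fin n => (low N ^ (i : ℕ)) *ᵥ fun i => u i.succ) ≤ LinearMap.ker l := by
    rw [Submodule.span_le]
    rintro _ ⟨i, rfl⟩
    exact hr3 i
  rw [hspan, top_le_iff] at hle
  have hr0 : ∀ j, r j = 0 := by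
    intro j
    have h3 : Pi.single j 1 ∈ LinearMap.ker l := by rw [hle]; exact Submodule.mem_top
    have h4 : r ⬝ᵥ Pi.single j 1 = 0 := h3
    rwa [dotProduct_single, mul_one] at h4
  refine ext_emb (hc 0) (fun j => ?_) (fun i => hc _) fun i j => h2 i j
  exact hr0 j

end Pool.Agent.L0h14.MX
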