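import Pool.Agent.L0h14.MX.Dim
import Pool.Agent.L0h14.HO.CSys
import Pool.Agent.L0h14.HO.CForm
import Pool.Agent.L0h14.HO.CLoc

/-!
# Extensions of conifold families: the system
-/

set_option autoImplicit false

open Matrix Filter Topology PowerSeries
open Pool.Agent.Y113 hiding ix Bm

namespace Pool.Agent.L0h14.MX

open Pool.Agent.Y119.HY (HD E E_HD E_zero E_mul_neg E_add chain_li cm Yf Hf Gal)
open Pool.Agent.L0h14.HO

section local_data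

variable {m : ℕ}

/-- the local data at the nearest singularity -/
structure ML (N : Matrix (Fin m) (Fin m) ℚ) (H : Matrix (Fin m) (Fin m) ℚ⟦X⟧) (ρ : ℝ) (u p : Fin m → ℂ) : Prop where
  nil : N ^ m = 0
  pos : 0 < ρ
  cv : ∀ t : ℝ, 1 / ρ < t → ∀ i j, Cv t (H i j)
  det : (1 - vecMulVec u p).det ≠ 0
  mono : ∃ (ε : ℝ) (Φ : ℂ → Matrix (Fin m) (Fin m) ℂ), 0 < ε ∧ ε ≤ 1 ∧
    (∀ i j, AnalyticOnNhd ℂ (fun s => Φ s i j) {s | s.re < Real.log ε}) ∧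
    (∀ x : ℝ, 1 - ε < x → x < 1 → Yf (cm N) (Hcc H) ((ρ : ℂ) * (x : ℂ)) = Φ (Real.log (1 - x) : ℝ)) ∧
    ∀ s : ℂ, s.re < Real.log ε → Φ (s + 2 * Real.pi * Complex.I) = Φ s * (1 - vecMulVec u p)

variable {N : Matrix (Fin m) (Fin m) ℚ} {H : Matrix (Fin m) (Fin m) ℚ⟦X⟧} {ρ : ℝ} {u p : Fin m → ℂ}

lemma ML.conj (h : ML N H ρ u p) (c : ℂ) (g : Matrix (Fin m) (Fin m) ℂ)
    (hg : g ∈ Gal fun z => Yf (cm N) (Hcc H) ((ρ : ℂ) * z)) :
    E (cm N) c * g * E (cm N) (-c) ∈ Gal fun z => Yf (cm N) (Hcc H) ((ρ : ℂ) * z) := by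
  have hN : cm N ^ m = 0 := cmN_nil h.nil
  have hρ := h.pos
  refine conj_EF (F := fun z => Hf (Hcc H) ((ρ : ℂ) * z) * E (cm N) (Complex.log ρ)) hN (fun i j => ?_) (fun x hx hx1 => ?_) c g hg
  · simp only [Matrix.mul_apply]
    refine Finset.analyticOnNhd_fun_sum _ fun l _ => AnalyticOnNhd.mul ?_ analyticOnNhd_const
    intro z hz
    rw [Metric.mem_ball, dist_zero_right] at hz
    have h1 : AnalyticAt ℂ (fun z => Hf (Hcc H) z i l) ((ρ : ℂ) * z) := Hf_anR hρ h.cv i l _ (by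
      rw [Metric.mem_ball, dist_zero_right, norm_mul, Complex.norm_real, Real.norm_of_nonneg hρ.le]
      nlinarith)
    exact h1.fun_comp (f := fun z : ℂ => (ρ : ℂ) * z) (analyticAt_const.mul analyticAt_id)
  · unfold Yf
    rw [Matrix.mul_assoc, ← E_add hN, ← Complex.ofReal_mul, ← Complex.ofReal_log (by positivity : 0 ≤ ρ * x),
      Real.log_mul hρ.ne' hx.ne', Complex.ofReal_add, Complex.ofReal_log hρ.le, Complex.ofReal_log hx.le]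

lemma ML.memGal (h : ML N H ρ u p) : 1 - vecMulVec u p ∈ Gal (fun z => Yf (cm N) (Hcc H) ((ρ : ℂ) * z)) ∧
    ∃ T' : Matrix (Fin m) (Fin m) ℂ, (1 - vecMulVec u p) * T' = 1 ∧
      T' ∈ Gal (fun z => Yf (cm N) (Hcc H) ((ρ : ℂ) * z)) := by
  have hN : cm N ^ m = 0 := cmN_nil h.nil
  have hρ := h.pos
  obtain ⟨ε, Φ, hε, hε1, hΦ, hY, hT⟩ := h.mono
  set F : ℂ → Matrix (Fin m) (Fin m) ℂ := fun z => Hf (Hcc H) ((ρ : ℂ) * z) * E (cm N) (Complex.log ρ) with hF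
  have hFan : ∀ i j, AnalyticOnNhd ℂ (fun z => F z i j) (Metric.ball 0 1) := by
    intro i j
    rw [hF]
    simp only [Matrix.mul_apply]
    refine Finset.analyticOnNhd_fun_sum _ fun l _ => AnalyticOnNhd.mul ?_ analyticOnNhd_const
    intro z hz
    rw [Metric.mem_ball, dist_zero_right] at hz
    have h1 : AnalyticAt ℂ (fun z => Hf (Hcc H) z i l) ((ρ : ℂ) * z) := Hf_anR hρ h.cv i l _ (by
      rw [Metric.mem_ball, dist_zero_right, norm_mul, Complex.norm_real, Real.norm_of_nonneg hρ.le]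
      nlinarith)
    exact h1.fun_comp (f := fun z : ℂ => (ρ : ℂ) * z) (analyticAt_const.mul analyticAt_id)
  have hYF : ∀ x : ℝ, 0 < x → x < 1 → Yf (cm N) (Hcc H) ((ρ : ℂ) * (x : ℂ)) = F (x : ℂ) * E (cm N) (Complex.log x) := by
    intro x hx hx1
    rw [hF]
    unfold Yf
    simp only
    rw [Matrix.mul_assoc, ← E_add hN, ← Complex.ofReal_mul, ← Complex.ofReal_log (by positivity : 0 ≤ ρ * x),
      Real.log_mul hρ.ne' hx.ne', Complex.ofReal_add, Complex.ofReal_log hρ.le, Complex.ofReal_log hx.le]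
  have ha : Real.log ε ≤ 0 := Real.log_nonpos hε.le hε1
  have hY' : ∀ x : ℝ, 1 - Real.exp (Real.log ε) < x → x < 1 →
      Yf (cm N) (Hcc H) ((ρ : ℂ) * (x : ℂ)) = Φ (Complex.log (1 - (x : ℂ))) := by
    intro x hx hx1
    rw [Real.exp_log hε] at hx
    rw [hY x hx hx1]
    congr 1
    have hxr : (1 - (x : ℂ)) = ((1 - x : ℝ) : ℂ) := by push_cast; rfl
    rw [hxr, Complex.ofReal_log (by linarith)]
  have hdet : IsUnit (1 - vecMulVec u p).det := Ne.isUnit h.det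
  refine ⟨?_, (1 - vecMulVec u p)⁻¹, mul_nonsing_inv _ hdet, ?_⟩
  · refine mono_at (Y := fun z => Yf (cm N) (Hcc H) ((ρ : ℂ) * z)) hN hFan hYF ha hΦ hY' (c := 2 * Real.pi * Complex.I)
      Complex.exp_two_pi_mul_I (by simp) fun s hs => hT s hs
  · refine mono_at (Y := fun z => Yf (cm N) (Hcc H) ((ρ : ℂ) * z)) hN hFan hYF ha hΦ hY' (c := -(2 * Real.pi * Complex.I))
      (by rw [Complex.exp_neg, Complex.exp_two_pi_mul_I, inv_one]) (by simp) fun s hs => ?_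
    have h1 := hT (s + -(2 * Real.pi * Complex.I)) (by
      have hs' : s.re < Real.log ε := hs
      rw [Complex.add_re]
      simpa using hs')
    rw [neg_add_cancel_right] at h1
    rw [h1, Matrix.mul_assoc, mul_nonsing_inv _ hdet, mul_one]

end local_data

lemma det_psr {m : ℕ} (u p : Fin m → ℂ) : (1 - vecMulVec u p).det = 1 - p ⬝ᵥ u := by
  have e1 : vecMulVec u p = replicateCol (Fin 1) u * replicateRow (Fin 1) p := by
    ext i j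
    rw [vecMulVec_apply, Matrix.mul_apply]
    simp
  rw [e1, det_one_sub_mul_comm]
  simp [Matrix.mul_apply, dotProduct]

/-- every closed monoid which is normalised by `E(s)` and contains the pseudo-reflection contains `G` -/
def Dns {n : ℕ} (N : Matrix (Fin n) (Fin n) ℂ) (u p : Fin n → ℂ) (G : Set (Matrix (Fin n) (Fin n) ℂ)) : Prop :=
  ∀ S₁ : Submonoid (Matrix (Fin n) (Fin n) ℂ), (∀ c : ℂ, ∀ g ∈ S₁, E N c * g * E N (-c) ∈ S₁) →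
    1 - vecMulVec u p ∈ S₁ → (∃ T₁ ∈ S₁, (1 - vecMulVec u p) * T₁ = 1) →
    (∀ g, (∀ q ∈ HO.Id (S₁ : Set (Matrix (Fin n) (Fin n) ℂ)), pe q g = 0) → g ∈ S₁) → ∀ g ∈ G, g ∈ S₁

section dns

variable {n : ℕ} {N J : Matrix (Fin n) (Fin n) ℂ} {u p : Fin n → ℂ}

lemma dns_sp (hN : N ^ n = 0) (hup : p ⬝ᵥ ((N ^ (n - 1)) *ᵥ u) ≠ 0) (hJ : Jᵀ = -J) (hdet : J.det ≠ 0)
    (hNJ : Nᵀ * J + J * N = 0) (hTJ : (1 - vecMulVec u p)ᵀ * J * (1 - vecMulVec u p) = J) :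
    Dns N u p (isoM J : Set (Matrix (Fin n) (Fin n) ℂ)) :=
  fun _ h1 h2 _ h4 g hg => sp_dense hJ hdet hN hNJ hup hTJ h1 h2 h4 g hg

lemma dns_so (hN : N ^ n = 0) (hup : p ⬝ᵥ ((N ^ (n - 1)) *ᵥ u) ≠ 0) (hJ : Jᵀ = J) (hdet : J.det ≠ 0)
    (hNJ : Nᵀ * J + J * N = 0) (hTJ : (1 - vecMulVec u p)ᵀ * J * (1 - vecMulVec u p) = J) :
    Dns N u p (isoM J : Set (Matrix (Fin n) (Fin n) ℂ)) :=
  fun _ h1 h2 _ h4 g hg => so_dense hJ hdet hN hNJ hup hTJ h1 h2 h4 g hg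

lemma dns_sl (hN : N ^ n = 0) (hn : 1 ≤ n) (hup : p ⬝ᵥ ((N ^ (n - 1)) *ᵥ u) ≠ 0) (hT : (1 - vecMulVec u p).det ≠ 0)
    (hform : ∀ J : Matrix (Fin n) (Fin n) ℂ, J.det ≠ 0 → Nᵀ * J + J * N = 0 →
      (1 - vecMulVec u p)ᵀ * J * (1 - vecMulVec u p) ≠ J) :
    Dns N u p {g | g.det = 1} := by
  rintro S₁ h1 h2 ⟨T₁, h3, h3'⟩ h4 g hg
  exact sl_dense'' hN hn hup hform hT h3' h1 h2 h3 h4 g hg

end dns

section main

variable {n : ℕ} {N : Matrix (Fin (n + 1)) (Fin (n + 1)) ℚ} {H : Matrix (Fin (n + 1)) (Fin (n + 1)) ℚ⟦X⟧} {ρ : ℝ}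
  {u p : Fin (n + 1) → ℂ}

/-- the dimension of the corner entry -/
lemma corner_low {M : Matrix (Fin (n + 1)) (Fin (n + 1)) ℂ} (hM : ∀ i, M i 0 = 0) (hp0 : p 0 = 0) (k : ℕ) :
    p ⬝ᵥ ((M ^ k) *ᵥ u) = (fun i : Fin n => p i.succ) ⬝ᵥ ((low M ^ k) *ᵥ fun i => u i.succ) := by
  rw [dotProduct, Fin.sum_univ_succ, hp0, zero_mul, zero_add, dotProduct]
  refine Finset.sum_congr rfl fun i _ => ?_
  congr 1
  rw [mulVec, dotProduct, Fin.sum_univ_succ, mulVec, dotProduct]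
  have h1 : (M ^ k) i.succ 0 = 0 := by
    rcases k with _ | k
    · simp [Matrix.one_apply, Fin.succ_ne_zero]
    · exact pow_s0 hM _ _
  rw [h1, zero_mul, zero_add]
  refine Finset.sum_congr rfl fun j _ => ?_
  rw [← low_pow hM]
  rfl

/-- a trivial subobject -/
theorem ML.galB (h : ML N H ρ u p) (hn : 1 ≤ n) (hN0 : ∀ i, cm N i 0 = 0) (hp0 : p 0 = 0)
    (hcor : p ⬝ᵥ ((cm N ^ (n - 1)) *ᵥ u) ≠ 0) (hext : (cm N ^ n) *ᵥ u ≠ 0) (hκ : ‖(1 - vecMulVec u p).det‖ = 1)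
    {G : Submonoid (Matrix (Fin n) (Fin n) ℂ)}
    (hG : Dns (low (cm N)) (fun i => u i.succ) (fun i => p i.succ) (G : Set (Matrix (Fin n) (Fin n) ℂ)))
    (g : Matrix (Fin (n + 1)) (Fin (n + 1)) ℂ) (hg : g ∈ mB G) :
    g ∈ Gal fun z => Yf (cm N) (Hcc H) ((ρ : ℂ) * z) := by
  obtain ⟨h1, h2, h3⟩ := hg
  obtain ⟨k1, T', k2, k3⟩ := h.memGal
  rw [eq_emb h1 h2]
  rw [det_psr] at hκ
  exact densB hn hN0 (cmN_nil h.nil) hp0 hcor hext (κ := 1 - p ⬝ᵥ u) (by ring) hκ h.conj k1 k2 k3 (Gal_Z _) hG _ h3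

/-- a trivial quotient -/
theorem ML.galA (h : ML N H ρ u p) (hn : 1 ≤ n) (hN0 : ∀ j, cm N 0 j = 0) (hu0 : u 0 = 0)
    (hcor : p ⬝ᵥ ((cm N ^ (n - 1)) *ᵥ u) ≠ 0) (hext : p ᵥ* (cm N ^ n) ≠ 0) (hκ : ‖(1 - vecMulVec u p).det‖ = 1)
    {G : Submonoid (Matrix (Fin n) (Fin n) ℂ)}
    (hG : Dns (low (cm N)) (fun i => u i.succ) (fun i => p i.succ) (G : Set (Matrix (Fin n) (Fin n) ℂ)))
    (g : Matrix (Fin (n + 1)) (Fin (n + 1)) ℂ) (hg : g ∈ mA G) :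
    g ∈ Gal fun z => Yf (cm N) (Hcc H) ((ρ : ℂ) * z) := by
  obtain ⟨h1, h2, h3⟩ := hg
  obtain ⟨k1, T', k2, k3⟩ := h.memGal
  have h4 : g = (emb (fun i => g i.succ 0) (low g)ᵀ)ᵀ := by
    refine ext_emb h1 h2 (fun i => rfl) fun i j => rfl
  rw [h4]
  rw [det_psr] at hκ
  exact densA hn hN0 (cmN_nil h.nil) hu0 hcor hext (κ := 1 - p ⬝ᵥ u) (by ring) hκ h.conj k1 k2 k3 (Gal_Z _) hG _ h3

end main

end Pool.Agent.L0h14.MX
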