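import Mathlib
import Pool.Agent.L0h14.HO.CDens
import Pool.Agent.L0h14.HO.CFin

/-!
# Extensions of the standard representation: an element of the unipotent radical
-/

set_option autoImplicit false

open Matrix Filter Topology

namespace Pool.Agent.L0h14.MX

open Pool.Agent.Y119.HY (HD E E_HD E_zero E_mul_neg E_add chain_li)
open Pool.Agent.L0h14.HO

variable {n m : ℕ}

/-- iterated brackets with `N` -/
lemma ad_pow (N X : Matrix (Fin m) (Fin m) ℂ) (k : ℕ) :
    ((LinearMap.mulLeft ℂ N - LinearMap.mulRight ℂ N) ^ k) X =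
      ∑ i ∈ Finset.range (k + 1), ((k.choose i : ℂ) * (-1) ^ (k - i)) • (N ^ i * X * N ^ (k - i)) := by
  have hc : Commute (LinearMap.mulLeft ℂ N) (-LinearMap.mulRight ℂ N) :=
    (LinearMap.commute_mulLeft_right (R := ℂ) N N).neg_right
  rw [sub_eq_add_neg, hc.add_pow, LinearMap.sum_apply]
  have h2 : ∀ (j : ℕ) (Y : Matrix (Fin m) (Fin m) ℂ), ((-LinearMap.mulRight ℂ N) ^ j) Y = (-1 : ℂ) ^ j • (Y * N ^ j) := by
    intro j
    induction j with
    | zero => intro Y; simp
    | succ j ih =>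
      intro Y
      rw [pow_succ, Module.End.mul_apply, ih, LinearMap.neg_apply, LinearMap.mulRight_apply, pow_succ' N, pow_succ,
        neg_mul, Matrix.mul_assoc, mul_neg, mul_one, neg_smul, smul_neg]
  refine Finset.sum_congr rfl fun i _ => ?_
  rw [LinearMap.pow_mulLeft, Module.End.mul_apply, Module.End.mul_apply, Module.End.natCast_apply, h2,
    LinearMap.mulLeft_apply, mul_smul_comm, ← Nat.cast_smul_eq_nsmul ℂ, smul_mul_assoc, mul_smul_comm, smul_smul,
    ← Matrix.mul_assoc, mul_comm ((-1 : ℂ) ^ (k - i))]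

variable {N : Matrix (Fin m) (Fin m) ℂ} {u p : Fin m → ℂ} {S : Submonoid (Matrix (Fin m) (Fin m) ℂ)}

lemma ad_mem (hN : N ^ m = 0) (hE : ∀ c : ℂ, ∀ g ∈ S, E N c * g * E N (-c) ∈ S) {X : Matrix (Fin m) (Fin m) ℂ}
    (hX : X ∈ Lie (S : Set (Matrix (Fin m) (Fin m) ℂ))) (k : ℕ) :
    ((LinearMap.mulLeft ℂ N - LinearMap.mulRight ℂ N) ^ k) X ∈ Lie (S : Set (Matrix (Fin m) (Fin m) ℂ)) := by
  induction k with
  | zero => simpa using hX
  | succ k ih =>
    rw [pow_succ', Module.End.mul_apply, LinearMap.sub_apply, LinearMap.mulLeft_apply, LinearMap.mulRight_apply]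
    exact bracket hN hE ih

/-- the tangent vector -/
lemma first_mem (hN : N ^ m = 0) (hE : ∀ c : ℂ, ∀ g ∈ S, E N c * g * E N (-c) ∈ S) (hS : 1 - vecMulVec u p ∈ S)
    {T' : Matrix (Fin m) (Fin m) ℂ} (hT' : (1 - vecMulVec u p) * T' = 1) (hS' : T' ∈ S) :
    (N * vecMulVec u p - vecMulVec u p * N) * T' ∈ Lie (S : Set (Matrix (Fin m) (Fin m) ℂ)) := by
  have h1 : ∀ c : ℂ, E N c * (1 - vecMulVec u p) * E N (-c) * T' ∈ S := fun c => mul_mem (hE c _ hS) hS'
  have h3 : HD (fun c : ℂ => E N c * (1 - vecMulVec u p) * E N (-c))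
      (N * (1 - vecMulVec u p) - (1 - vecMulVec u p) * N) 0 := by
    have h4 := E_HD hN (0 : ℂ)
    have h5 : HD (fun c : ℂ => E N (-c)) ((-1 : ℂ) • (N * E N 0)) 0 := by
      have h6 : HasDerivAt (fun c : ℂ => -c) (-1) 0 := (hasDerivAt_id _).neg
      have h7 : HD (E N) (N * E N 0) (-(0 : ℂ)) := by rw [neg_zero]; exact h4
      exact h7.comp h6
    refine ((h4.mul (Pool.Agent.Y119.HY.HD.const (1 - vecMulVec u p) 0)).mul h5).congr ?_
    rw [neg_zero, E_zero hN]
    simp only [mul_one, one_mul, mul_zero, add_zero, neg_smul, one_smul, Matrix.mul_neg, sub_eq_add_neg]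
  have h4 : HD (fun c : ℂ => E N c * (1 - vecMulVec u p) * E N (-c) * T')
      ((N * (1 - vecMulVec u p) - (1 - vecMulVec u p) * N) * T') 0 := by
    refine (h3.mul (Pool.Agent.Y119.HY.HD.const T' 0)).congr ?_
    rw [mul_zero, add_zero]
  have h5 := tangent h4 (by
    show E N 0 * (1 - vecMulVec u p) * E N (-0) * T' = 1
    rw [neg_zero, E_zero hN, one_mul, mul_one, hT']) h1
  have h6 : (N * vecMulVec u p - vecMulVec u p * N) * T' =
      (-1 : ℂ) • ((N * (1 - vecMulVec u p) - (1 - vecMulVec u p) * N) * T') := by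
    rw [neg_smul, one_smul, ← neg_mul]
    congr 1
    rw [mul_sub, sub_mul, mul_one, one_mul]
    abel
  rw [h6]
  exact Submodule.smul_mem _ _ h5

lemma sand (a b : ℕ) : N ^ a * vecMulVec u p * N ^ b = vecMulVec (N ^ a *ᵥ u) (p ᵥ* N ^ b) := by
  rw [mul_vecMulVec, vecMulVec_mul]

lemma vmul_pow_zero {p : Fin m → ℂ} {a b : ℕ} (h : p ᵥ* N ^ a = 0) (hab : a ≤ b) : p ᵥ* N ^ b = 0 := by
  obtain ⟨c, rfl⟩ := Nat.exists_eq_add_of_le hab
  rw [pow_add, ← vecMul_vecMul, h, zero_vecMul]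

/-- the inverse of a pseudo-reflection -/
lemma inv_eq {T' : Matrix (Fin m) (Fin m) ℂ} (hT' : (1 - vecMulVec u p) * T' = 1) {κ : ℂ} (hκ : p ⬝ᵥ u = 1 - κ) (hκ0 : κ ≠ 0) :
    T' = 1 + κ⁻¹ • vecMulVec u p := by
  have e2 : (1 - vecMulVec u p) * (1 + κ⁻¹ • vecMulVec u p) = 1 := by
    rw [sub_mul, one_mul, mul_add, mul_one, mul_smul_comm, vecMulVec_mul_vecMulVec, hκ, vecMulVec_smul, smul_smul]
    have : κ⁻¹ * (1 - κ) = κ⁻¹ - 1 := by field_simp
    rw [this]
    module
  have e4 : T' * (1 - vecMulVec u p) = 1 := mul_eq_one_comm.1 hT'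
  calc T' = T' * ((1 - vecMulVec u p) * (1 + κ⁻¹ • vecMulVec u p)) := by rw [e2, mul_one]
    _ = _ := by rw [← Matrix.mul_assoc, e4, one_mul]

/-- **A nilpotent element of the Lie algebra.** -/
theorem top_mem (hm : m = n + 1) (hn : 1 ≤ n) (hN : N ^ m = 0) (hpN : p ᵥ* N ^ n = 0)
    (hE : ∀ c : ℂ, ∀ g ∈ S, E N c * g * E N (-c) ∈ S) (hS : 1 - vecMulVec u p ∈ S)
    {T' : Matrix (Fin m) (Fin m) ℂ} (hT' : (1 - vecMulVec u p) * T' = 1) (hS' : T' ∈ S) {κ : ℂ}
    (hκ : p ⬝ᵥ u = 1 - κ) (hκ1 : ‖κ‖ = 1) :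
    vecMulVec (N ^ n *ᵥ u) (p ᵥ* N ^ (n - 1)) ∈ Lie (S : Set (Matrix (Fin m) (Fin m) ℂ)) := by
  have hκ0 : κ ≠ 0 := by
    rintro rfl
    simp at hκ1
  set L := Lie (S : Set (Matrix (Fin m) (Fin m) ℂ)) with hL
  set X := vecMulVec u p with hX
  set q : ℂ := p ⬝ᵥ (N *ᵥ u) with hq
  -- the first element
  have h1 := first_mem hN hE hS hT' hS'
  have hXX : X * X = (1 - κ) • X := by
    rw [hX, vecMulVec_mul_vecMulVec, hκ, vecMulVec_smul]
  have hXNX : X * N * X = q • X := rk_sandwich N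
  have hB : N * X - κ • (X * N) - q • X ∈ L := by
    have h2 : N * X - κ • (X * N) - q • X = κ • ((N * X - X * N) * T') := by
      rw [inv_eq hT' hκ hκ0, mul_add, mul_one, sub_mul, mul_smul_comm, mul_smul_comm, Matrix.mul_assoc N X X, hXX, hXNX,
        mul_smul_comm]
      simp only [smul_add, smul_sub, smul_smul]
      have e1 : κ * (κ⁻¹ * (1 - κ)) = 1 - κ := by field_simp
      have e2 : κ * (κ⁻¹ * q) = q := by field_simp
      rw [e1, e2]
      module
    rw [h2]
    exact Submodule.smul_mem _ _ h1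
  -- vanishing
  have hz1 : ∀ a b, n + 1 ≤ a → N ^ a * X * N ^ b = 0 := by
    intro a b ha
    rw [show N ^ a = 0 from by
      obtain ⟨c, rfl⟩ := Nat.exists_eq_add_of_le ha
      rw [pow_add, ← hm, hN, zero_mul], zero_mul, zero_mul]
  have hz2 : ∀ a b, n ≤ b → N ^ a * X * N ^ b = 0 := by
    intro a b hb
    rw [sand, vmul_pow_zero hpN hb]
    ext i j
    simp [vecMulVec_apply]
  have hterm : ∀ a b, N ^ a * (N * X - κ • (X * N) - q • X) * N ^ b =
      N ^ (a + 1) * X * N ^ b - κ • (N ^ a * X * N ^ (b + 1)) - q • (N ^ a * X * N ^ b) := by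
    intro a b
    rw [mul_sub, mul_sub, sub_mul, sub_mul, mul_smul_comm, mul_smul_comm, smul_mul_assoc, smul_mul_assoc, pow_succ, pow_succ']
    simp only [Matrix.mul_assoc]
  have hM : vecMulVec (N ^ n *ᵥ u) (p ᵥ* N ^ (n - 1)) = N ^ n * X * N ^ (n - 1) := (sand n (n - 1)).symm
  rw [hM]
  by_cases hq0 : q = 0
  · have h2 := ad_mem hN hE hB (2 * n - 2)
    rw [ad_pow] at h2
    have h3 : ∑ i ∈ Finset.range (2 * n - 2 + 1), (((2 * n - 2).choose i : ℂ) * (-1) ^ (2 * n - 2 - i)) •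
        (N ^ i * (N * X - κ • (X * N) - q • X) * N ^ (2 * n - 2 - i)) =
        ((-1) ^ (n - 1) * (((2 * n - 2).choose (n - 1) : ℂ) + κ * ((2 * n - 2).choose n : ℂ))) •
          (N ^ n * X * N ^ (n - 1)) := by
      have e1 : ∀ i ∈ Finset.range (2 * n - 2 + 1), (((2 * n - 2).choose i : ℂ) * (-1) ^ (2 * n - 2 - i)) •
        (N ^ i * (N * X - κ • (X * N) - q • X) * N ^ (2 * n - 2 - i)) =
          (if i = n - 1 then (((2 * n - 2).choose (n - 1) : ℂ) * (-1) ^ (n - 1)) • (N ^ n * X * N ^ (n - 1)) else 0) +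
          (if i = n then (κ * ((2 * n - 2).choose n : ℂ) * (-1) ^ (n - 1)) • (N ^ n * X * N ^ (n - 1)) else 0) := by
        intro i hi
        rw [Finset.mem_range] at hi
        rw [hterm, hq0, zero_smul, sub_zero]
        rcases lt_trichotomy i (n - 1) with hlt | heq | hgt
        · rw [if_neg (by omega), if_neg (by omega), hz2 _ _ (by omega), hz2 _ _ (by omega)]
          simp
        · rw [if_pos heq, if_neg (by omega)]
          have e2 : 2 * n - 2 - i = n - 1 := by omega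
          rw [e2, heq, hz2 (n - 1) (n - 1 + 1) (by omega), smul_zero, sub_zero, add_zero]
          congr 3
          rw [show n - 1 + 1 = n from by omega]
        · by_cases hin : i = n
          · rw [if_neg (by omega), if_pos hin, zero_add, hz1 (i + 1) _ (by omega), zero_sub]
            have e2 : 2 * n - 2 - i + 1 = n - 1 := by omega
            have e3 : (-1 : ℂ) ^ (n - 1) = -(-1) ^ (2 * n - 2 - i) := by
              rw [← e2, pow_succ]
              ring
            rw [e2, e3, hin, ← neg_smul, smul_smul]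
            congr 1
            ring
          · rw [if_neg (by omega), if_neg hin, hz1 _ _ (by omega), hz1 _ _ (by omega)]
            simp
      rw [Finset.sum_congr rfl e1, Finset.sum_add_distrib, Finset.sum_ite_eq', Finset.sum_ite_eq', if_pos (by
        rw [Finset.mem_range]; omega)]
      by_cases h1n : n = 1
      · subst h1n
        simp
      · rw [if_pos (by rw [Finset.mem_range]; omega), ← add_smul]
        congr 1
        ring
    rw [h3] at h2
    have hc : ((-1 : ℂ) ^ (n - 1) * (((2 * n - 2).choose (n - 1) : ℂ) + κ * ((2 * n - 2).choose n : ℂ))) ≠ 0 := by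
      refine mul_ne_zero (pow_ne_zero _ (by norm_num)) fun h0 => ?_
      have h4 : (((2 * n - 2).choose (n - 1) : ℂ)) = -(κ * ((2 * n - 2).choose n : ℂ)) := eq_neg_of_add_eq_zero_left h0
      have h5 := congrArg norm h4
      rw [norm_neg, norm_mul, hκ1, one_mul, Complex.norm_natCast, Complex.norm_natCast] at h5
      have h6 : (2 * n - 2).choose (n - 1) = (2 * n - 2).choose n := by exact_mod_cast h5
      have h8 : (2 * n - 2).choose (n - 1 + 1) * (n - 1 + 1) = (2 * n - 2).choose (n - 1) * (2 * n - 2 - (n - 1)) :=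
        Nat.choose_succ_right_eq _ _
      rw [show n - 1 + 1 = n from by omega, ← h6, show 2 * n - 2 - (n - 1) = n - 1 from by omega] at h8
      have h9 : 0 < (2 * n - 2).choose (n - 1) := Nat.choose_pos (by omega)
      have h10 := Nat.eq_of_mul_eq_mul_left h9 h8
      omega
    have h4 := Submodule.smul_mem L (((-1 : ℂ) ^ (n - 1) * (((2 * n - 2).choose (n - 1) : ℂ) +
      κ * ((2 * n - 2).choose n : ℂ)))⁻¹) h2
    rwa [smul_smul, inv_mul_cancel₀ hc, one_smul] at h4
  · have h2 := ad_mem hN hE hB (2 * n - 1)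
    rw [ad_pow] at h2
    have h3 : ∑ i ∈ Finset.range (2 * n - 1 + 1), (((2 * n - 1).choose i : ℂ) * (-1) ^ (2 * n - 1 - i)) •
        (N ^ i * (N * X - κ • (X * N) - q • X) * N ^ (2 * n - 1 - i)) =
        (-(((2 * n - 1).choose n : ℂ) * (-1) ^ (n - 1) * q)) • (N ^ n * X * N ^ (n - 1)) := by
      rw [Finset.sum_eq_single n]
      · rw [hterm, hz1 (n + 1) _ le_rfl, hz2 n (2 * n - 1 - n + 1) (by omega), smul_zero, sub_zero, zero_sub,
          show 2 * n - 1 - n = n - 1 from by omega, ← neg_smul, smul_smul]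
        congr 1
        ring
      · intro i hi hne
        rw [Finset.mem_range] at hi
        rw [hterm]
        rcases lt_or_gt_of_ne hne with hlt | hgt
        · rw [hz2 _ (2 * n - 1 - i) (by omega), hz2 _ (2 * n - 1 - i + 1) (by omega), hz2 _ (2 * n - 1 - i) (by omega)]
          simp
        · rw [hz1 _ _ (by omega), hz1 _ _ (by omega), hz1 _ _ (by omega)]
          simp
      · intro h
        exact absurd (Finset.mem_range.2 (by omega)) h
    rw [h3] at h2
    have hc : (-(((2 * n - 1).choose n : ℂ) * (-1) ^ (n - 1) * q)) ≠ 0 := by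
      refine neg_ne_zero.2 (mul_ne_zero (mul_ne_zero ?_ (pow_ne_zero _ (by norm_num))) hq0)
      exact_mod_cast (Nat.choose_pos (by omega)).ne'
    have h4 := Submodule.smul_mem L ((-(((2 * n - 1).choose n : ℂ) * (-1) ^ (n - 1) * q))⁻¹) h2
    rwa [smul_smul, inv_mul_cancel₀ hc, one_smul] at h4

end Pool.Agent.L0h14.MX
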