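import Pool.Agent.L0h14.MX.Emb

/-!
# Extensions of the standard representation: the dual case
-/

set_option autoImplicit false

open Matrix Filter Topology

namespace Pool.Agent.L0h14.MX

open Pool.Agent.Y119.HY (HD E E_HD E_zero E_mul_neg E_add chain_li)
open Pool.Agent.L0h14.HO

section tr

variable {m : ℕ}

/-- the transposed monoid -/
def trS (S : Submonoid (Matrix (Fin m) (Fin m) ℂ)) : Submonoid (Matrix (Fin m) (Fin m) ℂ) where
  carrier := {g | gᵀ ∈ S}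
  mul_mem' := by
    intro a b ha hb
    show (a * b)ᵀ ∈ S
    rw [transpose_mul]
    exact mul_mem hb ha
  one_mem' := by
    show (1 : Matrix (Fin m) (Fin m) ℂ)ᵀ ∈ S
    rw [transpose_one]
    exact one_mem S

lemma mem_trS {S : Submonoid (Matrix (Fin m) (Fin m) ℂ)} {g : Matrix (Fin m) (Fin m) ℂ} : g ∈ trS S ↔ gᵀ ∈ S := Iff.rfl

lemma pe_tr (q : MvPolynomial (Fin m × Fin m) ℂ) (g : Matrix (Fin m) (Fin m) ℂ) :
    pe (MvPolynomial.rename Prod.swap q) g = pe q gᵀ := by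
  unfold pe
  rw [MvPolynomial.eval_rename]
  rfl

lemma trS_Z {S : Submonoid (Matrix (Fin m) (Fin m) ℂ)}
    (hZ : ∀ g, (∀ q ∈ HO.Id (S : Set (Matrix (Fin m) (Fin m) ℂ)), pe q g = 0) → g ∈ S)
    (g : Matrix (Fin m) (Fin m) ℂ) (h : ∀ q ∈ HO.Id (trS S : Set (Matrix (Fin m) (Fin m) ℂ)), pe q g = 0) : g ∈ trS S := by
  refine hZ _ fun q hq => ?_
  rw [← pe_tr]
  refine h _ fun g hg => ?_
  rw [pe_tr]
  exact hq _ hg

lemma trS_E {S : Submonoid (Matrix (Fin m) (Fin m) ℂ)} {N : Matrix (Fin m) (Fin m) ℂ}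
    (hE : ∀ c : ℂ, ∀ g ∈ S, E N c * g * E N (-c) ∈ S) (c : ℂ) (g : Matrix (Fin m) (Fin m) ℂ) (hg : g ∈ trS S) :
    E Nᵀ c * g * E Nᵀ (-c) ∈ trS S := by
  rw [mem_trS, transpose_mul, transpose_mul, E_transpose, E_transpose, transpose_transpose, transpose_transpose,
    ← Matrix.mul_assoc]
  have := hE (-c) _ (mem_trS.1 hg)
  rwa [neg_neg] at this

lemma psr_tr (u p : Fin m → ℂ) : (1 - vecMulVec u p)ᵀ = 1 - vecMulVec p u := by
  rw [transpose_sub, transpose_one, transpose_vecMulVec]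

end tr

variable {n : ℕ} {N : Matrix (Fin (n + 1)) (Fin (n + 1)) ℂ} {u p : Fin (n + 1) → ℂ}
  {S : Submonoid (Matrix (Fin (n + 1)) (Fin (n + 1)) ℂ)}

/-- **The density theorem, dual case.** -/
theorem densA (hn : 1 ≤ n) (hN0 : ∀ j, N 0 j = 0) (hN : N ^ (n + 1) = 0) (hu0 : u 0 = 0)
    (hcor : p ⬝ᵥ ((N ^ (n - 1)) *ᵥ u) ≠ 0) (hext : p ᵥ* (N ^ n) ≠ 0) {κ : ℂ} (hκ : p ⬝ᵥ u = 1 - κ) (hκ1 : ‖κ‖ = 1)
    (hE : ∀ c : ℂ, ∀ g ∈ S, E N c * g * E N (-c) ∈ S) (hS : 1 - vecMulVec u p ∈ S)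
    {T' : Matrix (Fin (n + 1)) (Fin (n + 1)) ℂ} (hT' : (1 - vecMulVec u p) * T' = 1) (hS' : T' ∈ S)
    (hZ : ∀ g, (∀ q ∈ HO.Id (S : Set (Matrix (Fin (n + 1)) (Fin (n + 1)) ℂ)), pe q g = 0) → g ∈ S)
    {G : Set (Matrix (Fin n) (Fin n) ℂ)}
    (hG : ∀ S₁ : Submonoid (Matrix (Fin n) (Fin n) ℂ), (∀ c : ℂ, ∀ g ∈ S₁, E (low N) c * g * E (low N) (-c) ∈ S₁) →
      1 - vecMulVec (fun i => u i.succ) (fun i => p i.succ) ∈ S₁ →
      (∃ T₁ ∈ S₁, (1 - vecMulVec (fun i => u i.succ) (fun i => p i.succ)) * T₁ = 1) →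
      (∀ g, (∀ q ∈ HO.Id (S₁ : Set (Matrix (Fin n) (Fin n) ℂ)), pe q g = 0) → g ∈ S₁) → ∀ g ∈ G, g ∈ S₁)
    (y : Fin n → ℂ) {g : Matrix (Fin n) (Fin n) ℂ} (hg : g ∈ G) : (emb y gᵀ)ᵀ ∈ S := by
  have hlow : low Nᵀ = (low N)ᵀ := rfl
  have key := densB (N := Nᵀ) (u := p) (p := u) (S := trS S) hn (fun i => hN0 i) (by rw [← transpose_pow, hN, transpose_zero])
    hu0 (by
      rw [← transpose_pow, mulVec_transpose, dotProduct_comm, ← dotProduct_mulVec]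
      exact hcor) (by
      rw [← transpose_pow, mulVec_transpose]
      exact hext) (by rw [dotProduct_comm]; exact hκ) hκ1 (trS_E hE) (by
      rw [mem_trS, psr_tr]
      exact hS) (T' := T'ᵀ) (by
      rw [← psr_tr, ← transpose_mul, mul_eq_one_comm.1 hT', transpose_one]) (by
      rw [mem_trS, transpose_transpose]
      exact hS') (trS_Z hZ) (G := {g | gᵀ ∈ G}) (fun S₁ h1 h2 h3 h4 g hg => ?_) y (g := gᵀ) (by
      show gᵀᵀ ∈ G
      rw [transpose_transpose]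
      exact hg)
  · exact mem_trS.1 key
  · have h5 := hG (trS S₁) (fun c g hg => ?_) ?_ ?_ (trS_Z h4) gᵀ hg
    · rw [mem_trS, transpose_transpose] at h5
      exact h5
    · have h6 := trS_E (S := S₁) (N := (low N)ᵀ) (fun c g hg => by
        rw [← hlow]
        exact h1 c g hg) c g hg
      rwa [transpose_transpose] at h6
    · rw [mem_trS, psr_tr]
      exact h2
    · obtain ⟨T₁, h6, h7⟩ := h3
      refine ⟨T₁ᵀ, by rw [mem_trS, transpose_transpose]; exact h6, ?_⟩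
      rw [← psr_tr, ← transpose_mul, mul_eq_one_comm.1 h7, transpose_one]

end Pool.Agent.L0h14.MX
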